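import Pool.Agent.Lib.MP_4be4c6_an.Final

/-!
# MP_4be4c6_an : an integrable function on the plane which tiles with bounded density
but with no lattice
-/

set_option autoImplicit false

namespace Pool.Agent.Results.MP_4be4c6_an.Main

open MeasureTheory Pool.Agent.Lib.MP_4be4c6_an

/-- There are a nonnegative continuous integrable function `f` on the plane, a translation set `Λ`
of bounded density and a level `w > 0` such that `f + Λ` is a tiling at level `w`, while for no
lattice `A ℤ²` (`det A ≠ 0`) and no constant `w'` is `f + A ℤ²` a tiling at level `w'`. -/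
theorem result :
    ∃ (f : EuclideanSpace ℝ (Fin 2) → ℝ) (Λ : Set (EuclideanSpace ℝ (Fin 2))) (w : ℝ),
      Continuous f ∧ (∀ x, 0 ≤ f x) ∧ Integrable f ∧ 0 < w ∧ BoundedDensity Λ ∧
      TilesAt (fun x => (f x : ℂ)) Λ w ∧
      ∀ A : Matrix (Fin 2) (Fin 2) ℝ, A.det ≠ 0 → ∀ w' : ℂ,
        ¬ TilesAt (fun x => (f x : ℂ)) (latticeOf A) w' := by
  have hβ : Irrational (√2) := irrational_sqrt_two
  have hβ1 : 141 / 100 < √2 := by
    rw [Real.lt_sqrt (by norm_num)]
    norm_num
  have hβ2 : √2 < 142 / 100 := by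
    rw [Real.sqrt_lt' (by norm_num)]
    norm_num
  obtain ⟨φ, l, M, hφ, hl, hM, hmain⟩ := main_lemma hβ
  refine ⟨fE l M, Set.range (ptE φ (√2)), 20, fE_continuous l hM, fun x => FF_nonneg _ _ _ _,
    fE_integrable l hM, by norm_num, boundedDensity hβ1 hβ2 hφ, ?_, ?_⟩
  · have := tiles_fE hM hmain (ptE_injective hβ hβ1 hβ2 hφ)
    push_cast
    exact this
  · intro A hA w' ht
    exact no_lattice hA hM hl ht

end Pool.Agent.Results.MP_4be4c6_an.Main
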